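import Mathlib

/-!
# Partition of a graph into connected parts of bounded size
-/

set_option autoImplicit false

namespace Pool.Agent.MP6be45b

namespace TreePart

open Finset

/-- a rooted spanning forest of `G`: `p` is the parent function, `p r = r` for the roots -/
structure Rooted {V : Type*} (G : SimpleGraph V) (p : V → V) (h : V → ℕ) : Prop where
  adj : ∀ v, p v ≠ v → G.Adj v (p v)
  lt : ∀ v, p v ≠ v → h (p v) < h v

/-- `B` hangs below its top vertex `t` -/
structure IsTop {V : Type*} (p : V → V) (B : Finset V) (t : V) : Prop where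
  mem : t ∈ B
  par : ∀ w ∈ B, w ≠ t → p w ∈ B ∧ p w ≠ w

variable {V : Type*} [Fintype V] [DecidableEq V] {G : SimpleGraph V} {p : V → V} {h : V → ℕ}

/-- the descendants of `v` -/
def Desc (p : V → V) (v w : V) : Prop := ∃ k, p^[k] w = v

omit [Fintype V] [DecidableEq V] in
theorem desc_self (v : V) : Desc p v v := ⟨0, rfl⟩

omit [Fintype V] [DecidableEq V] in
theorem desc_of_par {v w : V} (hw : Desc p v (p w)) : Desc p v w := by
  obtain ⟨k, hk⟩ := hw
  exact ⟨k + 1, hk⟩

omit [Fintype V] [DecidableEq V] in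
theorem par_desc {v w : V} (hw : Desc p v w) (hne : w ≠ v) : Desc p v (p w) := by
  obtain ⟨k, hk⟩ := hw
  cases k with
  | zero => exact absurd hk hne
  | succ k => exact ⟨k, hk⟩

omit [Fintype V] [DecidableEq V] in
theorem desc_trans {u v w : V} (h1 : Desc p u v) (h2 : Desc p v w) : Desc p u w := by
  obtain ⟨k, hk⟩ := h1
  obtain ⟨l, hl⟩ := h2
  refine ⟨k + l, ?_⟩
  rw [Function.iterate_add_apply, hl, hk]

omit [Fintype V] [DecidableEq V] in
/-- a fixed point is only a descendant of itself -/
theorem desc_fix {v w : V} (hw : p w = w) (hd : Desc p v w) : w = v := by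
  obtain ⟨k, hk⟩ := hd
  rw [Function.iterate_fixed hw] at hk
  exact hk

omit [Fintype V] [DecidableEq V] in
theorem desc_root_unique {r r' w : V} (hr : p r = r) (hr' : p r' = r') (h1 : Desc p r w)
    (h2 : Desc p r' w) : r = r' := by
  obtain ⟨k, hk⟩ := h1
  obtain ⟨l, hl⟩ := h2
  have e1 : p^[l + k] w = r := by
    rw [Function.iterate_add_apply, hk, Function.iterate_fixed hr]
  have e2 : p^[l + k] w = r' := by
    rw [Nat.add_comm, Function.iterate_add_apply, hl, Function.iterate_fixed hr']
  rw [← e1, e2]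

omit [Fintype V] [DecidableEq V] in
theorem exists_root (hR : Rooted G p h) (w : V) : ∃ r, p r = r ∧ Desc p r w := by
  induction hn : h w using Nat.strong_induction_on generalizing w with
  | _ n ih =>
    by_cases hw : p w = w
    · exact ⟨w, hw, desc_self w⟩
    · obtain ⟨r, hr, hd⟩ := ih (h (p w)) (hn ▸ hR.lt w hw) (p w) rfl
      exact ⟨r, hr, desc_of_par hd⟩

omit [Fintype V] [DecidableEq V] in
theorem iter_mem {A : Finset V} (hA : ∀ w ∈ A, p w ∈ A) {w : V} (hw : w ∈ A) (k : ℕ) :
    p^[k] w ∈ A := by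
  induction k with
  | zero => exact hw
  | succ k ih =>
    rw [Function.iterate_succ_apply']
    exact hA _ ih

omit [Fintype V] [DecidableEq V] in
theorem desc_mem {A : Finset V} (hA : ∀ w ∈ A, p w ∈ A) {v w : V} (hw : w ∈ A)
    (hd : Desc p v w) : v ∈ A := by
  obtain ⟨k, rfl⟩ := hd
  exact iter_mem hA hw k

open Classical in
/-- the descendants of `v` in `A` -/
noncomputable def dsc (p : V → V) (A : Finset V) (v : V) : Finset V := A.filter fun w => Desc p v w

omit [Fintype V] [DecidableEq V] in
theorem mem_dsc {A : Finset V} {v w : V} : w ∈ dsc p A v ↔ w ∈ A ∧ Desc p v w := by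
  classical
  unfold dsc
  exact mem_filter

omit [Fintype V] [DecidableEq V] in
theorem isTop_dsc {A : Finset V} (hA : ∀ w ∈ A, p w ∈ A) {v : V} (hv : v ∈ A) :
    IsTop p (dsc p A v) v where
  mem := mem_dsc.2 ⟨hv, desc_self v⟩
  par := fun w hw hne => by
    obtain ⟨h1, h2⟩ := mem_dsc.1 hw
    refine ⟨mem_dsc.2 ⟨hA w h1, par_desc h2 hne⟩, fun hp => hne (desc_fix hp h2)⟩

/-- the children of `v` -/
def chl (p : V → V) (v : V) : Finset V := univ.filter fun c => p c = v ∧ c ≠ v

theorem card_chl [DecidableRel G.Adj] (hR : Rooted G p h) {D : ℕ} (hD : ∀ v, G.degree v ≤ D)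
    (v : V) : (chl p v).card ≤ D ∧ (p v ≠ v → (chl p v).card + 1 ≤ D) := by
  have hsub : chl p v ⊆ G.neighborFinset v := by
    intro c hc
    obtain ⟨h1, h2⟩ := (mem_filter.1 hc).2
    rw [SimpleGraph.mem_neighborFinset]
    have := hR.adj c (by rw [h1]; exact Ne.symm h2)
    rw [h1] at this
    exact this.symm
  refine ⟨(card_le_card hsub).trans (hD v), fun hp => ?_⟩
  have h1 : p v ∈ G.neighborFinset v := by
    rw [SimpleGraph.mem_neighborFinset]
    exact hR.adj v hp
  have h2 : p v ∉ chl p v := by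
    intro hc
    obtain ⟨h3, h4⟩ := (mem_filter.1 hc).2
    have h5 := hR.lt v hp
    have h6 := hR.lt (p v) (by rw [h3]; exact Ne.symm h4)
    rw [h3] at h6
    omega
  have h3 : insert (p v) (chl p v) ⊆ G.neighborFinset v :=
    insert_subset h1 hsub
  have h4 := (card_le_card h3).trans (hD v)
  rwa [card_insert_of_notMem h2] at h4

theorem card_dsc {A : Finset V} {K : ℕ} {v : V}
    (hc : ∀ c ∈ chl p v, (dsc p A c).card ≤ K) : (dsc p A v).card ≤ (chl p v).card * K + 1 := by
  have hsub : dsc p A v ⊆ insert v ((chl p v).biUnion fun c => dsc p A c) := by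
    intro w hw
    obtain ⟨h1, h2⟩ := mem_dsc.1 hw
    rw [mem_insert, mem_biUnion]
    by_cases hwv : w = v
    · exact Or.inl hwv
    · right
      have hex : ∃ k, p^[k + 1] w = v := by
        obtain ⟨k, hk⟩ := h2
        cases k with
        | zero => exact absurd hk hwv
        | succ k => exact ⟨k, hk⟩
      classical
      have hk := Nat.find_spec hex
      set k := Nat.find hex with hkdef
      have hne : p^[k] w ≠ v := by
        intro he
        cases hk0 : k with
        | zero => rw [hk0] at he; exact hwv he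
        | succ j =>
          have := Nat.find_min hex (m := j) (by omega)
          rw [hk0] at he
          exact this he
      refine ⟨p^[k] w, ?_, ?_⟩
      · refine mem_filter.2 ⟨mem_univ _, ?_, hne⟩
        rw [← hk, Function.iterate_succ_apply']
      · exact mem_dsc.2 ⟨h1, k, rfl⟩
  calc (dsc p A v).card ≤ _ := card_le_card hsub
    _ ≤ ((chl p v).biUnion fun c => dsc p A c).card + 1 := card_insert_le _ _
    _ ≤ (chl p v).card * K + 1 := by
      gcongr
      exact card_biUnion_le_card_mul _ _ _ hc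

theorem main [DecidableRel G.Adj] (hR : Rooted G p h) {D K : ℕ} (hK : 1 ≤ K)
    (hD : ∀ v, G.degree v ≤ D) (n : ℕ) : ∀ A : Finset V, A.card = n → (∀ w ∈ A, p w ∈ A) →
    (∀ r ∈ A, p r = r → K ≤ (dsc p A r).card) →
    ∃ P : Finset (Finset V), (∀ B ∈ P, (∃ t, IsTop p B t) ∧ K ≤ B.card ∧
      B.card ≤ D * (K - 1) + 1) ∧ (∀ B ∈ P, ∀ B' ∈ P, B ≠ B' → Disjoint B B') ∧
      ∀ v, v ∈ A ↔ ∃ B ∈ P, v ∈ B := by
  induction n using Nat.strong_induction_on with
  | _ n ih =>
    intro A hn hA hroot
    rcases A.eq_empty_or_nonempty with rfl | ⟨w0, hw0⟩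
    · exact ⟨∅, by simp, by simp, by simp⟩
    -- removal of a set of descendants
    have rem : ∀ t ∈ A, K ≤ (dsc p A t).card → (dsc p A t).card ≤ D * (K - 1) + 1 →
        (∀ r ∈ A, p r = r → r ∉ dsc p A t → K ≤ (dsc p (A \ dsc p A t) r).card) →
        ∃ P : Finset (Finset V), (∀ B ∈ P, (∃ t, IsTop p B t) ∧ K ≤ B.card ∧
          B.card ≤ D * (K - 1) + 1) ∧ (∀ B ∈ P, ∀ B' ∈ P, B ≠ B' → Disjoint B B') ∧
          ∀ v, v ∈ A ↔ ∃ B ∈ P, v ∈ B := by
      intro t ht h1 h2 h3
      have htop := isTop_dsc hA ht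
      have hlt : (A \ dsc p A t).card < n := by
        rw [← hn]
        apply card_lt_card
        rw [ssubset_iff_of_subset sdiff_subset]
        exact ⟨t, ht, fun hc => (mem_sdiff.1 hc).2 htop.mem⟩
      have hcl : ∀ w ∈ A \ dsc p A t, p w ∈ A \ dsc p A t := by
        intro w hw
        obtain ⟨h4, h5⟩ := mem_sdiff.1 hw
        refine mem_sdiff.2 ⟨hA w h4, fun hc => h5 (mem_dsc.2 ⟨h4, desc_of_par (mem_dsc.1 hc).2⟩)⟩
      obtain ⟨P, hP1, hP2, hP3⟩ := ih _ hlt (A \ dsc p A t) rfl hcl (by
        intro r hr hpr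
        obtain ⟨h4, h5⟩ := mem_sdiff.1 hr
        exact h3 r h4 hpr h5)
      have hdis : ∀ B ∈ P, Disjoint (dsc p A t) B := by
        intro B hB
        rw [disjoint_left]
        intro v hv hvB
        have := (hP3 v).2 ⟨B, hB, hvB⟩
        exact (mem_sdiff.1 this).2 hv
      refine ⟨insert (dsc p A t) P, ?_, ?_, ?_⟩
      · intro B hB
        rcases mem_insert.1 hB with rfl | hB
        · exact ⟨⟨t, htop⟩, h1, h2⟩
        · exact hP1 B hB
      · intro B hB B' hB' hne
        rcases mem_insert.1 hB with rfl | hB <;> rcases mem_insert.1 hB' with rfl | hB'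
        · exact absurd rfl hne
        · exact hdis _ hB'
        · exact (hdis _ hB).symm
        · exact hP2 B hB B' hB' hne
      · intro v
        constructor
        · intro hv
          by_cases hvt : v ∈ dsc p A t
          · exact ⟨_, mem_insert_self _ _, hvt⟩
          · obtain ⟨B, hB, hvB⟩ := (hP3 v).1 (mem_sdiff.2 ⟨hv, hvt⟩)
            exact ⟨B, mem_insert_of_mem hB, hvB⟩
        · rintro ⟨B, hB, hvB⟩
          rcases mem_insert.1 hB with rfl | hB
          · exact (mem_dsc.1 hvB).1
          · exact (mem_sdiff.1 ((hP3 v).2 ⟨B, hB, hvB⟩)).1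
    -- removal of a whole component
    have remroot : ∀ r ∈ A, p r = r → (dsc p A r).card ≤ D * (K - 1) + 1 →
        ∃ P : Finset (Finset V), (∀ B ∈ P, (∃ t, IsTop p B t) ∧ K ≤ B.card ∧
          B.card ≤ D * (K - 1) + 1) ∧ (∀ B ∈ P, ∀ B' ∈ P, B ≠ B' → Disjoint B B') ∧
          ∀ v, v ∈ A ↔ ∃ B ∈ P, v ∈ B := by
      intro r hr hpr h2
      refine rem r hr (hroot r hr hpr) h2 ?_
      intro r' hr' hpr' hnot
      have heq : dsc p (A \ dsc p A r) r' = dsc p A r' := by
        ext w
        rw [mem_dsc, mem_dsc, mem_sdiff, mem_dsc]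
        constructor
        · rintro ⟨⟨h4, h5⟩, h6⟩
          exact ⟨h4, h6⟩
        · rintro ⟨h4, h6⟩
          refine ⟨⟨h4, fun h5 => ?_⟩, h6⟩
          have := desc_root_unique hpr' hpr h6 h5.2
          subst this
          exact hnot (mem_dsc.2 ⟨hr, desc_self _⟩)
      rw [heq]
      exact hroot r' hr' hpr'
    -- the lowest vertex with many descendants
    obtain ⟨r0, hr0, hd0⟩ := exists_root hR w0
    have hr0A : r0 ∈ A := desc_mem hA hw0 hd0
    obtain ⟨v, hv, hmax⟩ := exists_max_image (A.filter fun v => K ≤ (dsc p A v).card) h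
      ⟨r0, mem_filter.2 ⟨hr0A, hroot r0 hr0A hr0⟩⟩
    obtain ⟨hvA, hvK⟩ := mem_filter.1 hv
    have hch : ∀ c ∈ chl p v, (dsc p A c).card ≤ K - 1 := by
      intro c hc
      obtain ⟨h1, h2⟩ := (mem_filter.1 hc).2
      by_contra hcon
      push Not at hcon
      have hcK : K ≤ (dsc p A c).card := by omega
      have hcA : c ∈ A := by
        have hpos : 0 < (dsc p A c).card := by omega
        obtain ⟨w, hw⟩ := card_pos.1 hpos
        exact desc_mem hA (mem_dsc.1 hw).1 (mem_dsc.1 hw).2
      have h3 := hmax c (mem_filter.2 ⟨hcA, hcK⟩)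
      have h4 := hR.lt c (by rw [h1]; exact Ne.symm h2)
      rw [h1] at h4
      omega
    have hcard := card_dsc hch
    obtain ⟨hc1, hc2⟩ := card_chl hR hD v
    by_cases hpv : p v = v
    · apply remroot v hvA hpv
      calc _ ≤ _ := hcard
        _ ≤ D * (K - 1) + 1 := by gcongr
    · obtain ⟨r, hr, hd⟩ := exists_root hR v
      have hrA : r ∈ A := desc_mem hA hvA hd
      have hc3 := hc2 hpv
      have hsub : dsc p A v ⊆ dsc p A r := by
        intro w hw
        obtain ⟨h1, h2⟩ := mem_dsc.1 hw
        exact mem_dsc.2 ⟨h1, desc_trans hd h2⟩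
      by_cases hbig : K ≤ (dsc p A r \ dsc p A v).card
      · apply rem v hvA hvK
        · calc _ ≤ _ := hcard
            _ ≤ D * (K - 1) + 1 := by gcongr
        · intro r' hr' hpr' hnot
          by_cases hrr : r' = r
          · subst hrr
            refine hbig.trans (card_le_card ?_)
            intro w hw
            obtain ⟨h1, h2⟩ := mem_sdiff.1 hw
            exact mem_dsc.2 ⟨mem_sdiff.2 ⟨(mem_dsc.1 h1).1, h2⟩, (mem_dsc.1 h1).2⟩
          · refine (hroot r' hr' hpr').trans (card_le_card ?_)
            intro w hw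
            obtain ⟨h1, h2⟩ := mem_dsc.1 hw
            refine mem_dsc.2 ⟨mem_sdiff.2 ⟨h1, fun h5 => hrr ?_⟩, h2⟩
            exact desc_root_unique hpr' hr h2 (desc_trans hd (mem_dsc.1 h5).2)
      · apply remroot r hrA hr
        have h1 : (dsc p A r).card = (dsc p A r \ dsc p A v).card + (dsc p A v).card :=
          (card_sdiff_add_card_eq_card hsub).symm
        have h2 : (chl p v).card * (K - 1) + 1 + (K - 1) ≤ D * (K - 1) + 1 := by
          have : ((chl p v).card + 1) * (K - 1) ≤ D * (K - 1) := by gcongr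
          rw [add_mul, one_mul] at this
          omega
        omega

omit [Fintype V] [DecidableEq V] in
/-- sets hanging below a top vertex are connected -/
theorem IsTop.connected (hR : Rooted G p h) {B : Finset V} {t : V} (hB : IsTop p B t) :
    (G.induce (B : Set V)).Connected := by
  rw [SimpleGraph.connected_iff_exists_forall_reachable]
  refine ⟨⟨t, hB.mem⟩, ?_⟩
  rintro ⟨w, hw⟩
  induction hn : h w using Nat.strong_induction_on generalizing w with
  | _ n ih =>
    by_cases hwt : w = t
    · subst hwt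
      exact SimpleGraph.Reachable.refl _
    · obtain ⟨h1, h2⟩ := hB.par w hw hwt
      have h3 := ih (h (p w)) (hn ▸ hR.lt w h2) (p w) h1 rfl
      refine h3.trans (SimpleGraph.Adj.reachable ?_)
      exact (hR.adj w h2).symm

omit [Fintype V] [DecidableEq V] in
/-- every graph has a rooted spanning forest whose trees are its connected components -/
theorem exists_rooted (G : SimpleGraph V) : ∃ (p : V → V) (h : V → ℕ), Rooted G p h ∧
    ∀ v w, p v = v → G.Reachable v w → Desc p v w := by
  classical
  let rt : V → V := fun v => (G.connectedComponentMk v).out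
  have hrt : ∀ v, G.Reachable (rt v) v := fun v =>
    SimpleGraph.ConnectedComponent.exact (Quot.out_eq (G.connectedComponentMk v))
  have hrt2 : ∀ v w, G.Reachable v w → rt v = rt w := fun v w hvw => by
    show (G.connectedComponentMk v).out = (G.connectedComponentMk w).out
    rw [SimpleGraph.ConnectedComponent.sound hvw]
  have key : ∀ v, v ≠ rt v → ∃ u, G.Adj v u ∧ G.dist (rt v) u < G.dist (rt v) v := by
    intro v hv
    obtain ⟨q, hq⟩ := (hrt v).exists_walk_length_eq_dist
    have hnil : ¬ q.reverse.Nil := by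
      intro hn
      exact hv hn.eq
    obtain ⟨u, hadj, q', hq'⟩ := SimpleGraph.Walk.not_nil_iff.1 hnil
    refine ⟨u, hadj, ?_⟩
    have h1 : G.dist (rt v) u ≤ q'.length := by
      rw [SimpleGraph.dist_comm]
      exact SimpleGraph.dist_le q'
    have h2 : q.reverse.length = q'.length + 1 := by
      rw [hq', SimpleGraph.Walk.length_cons]
    rw [SimpleGraph.Walk.length_reverse, hq] at h2
    omega
  let p : V → V := fun v => if hv : v = rt v then v else (key v hv).choose
  have hp1 : ∀ v, v = rt v → p v = v := fun v hv => dif_pos hv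
  have hp2 : ∀ v, v ≠ rt v → G.Adj v (p v) ∧ G.dist (rt v) (p v) < G.dist (rt v) v := by
    intro v hv
    have : p v = (key v hv).choose := dif_neg hv
    rw [this]
    exact (key v hv).choose_spec
  have hp3 : ∀ v, p v ≠ v → v ≠ rt v := fun v hv he => hv (hp1 v he)
  have hrp : ∀ v, rt (p v) = rt v := by
    intro v
    by_cases hv : v = rt v
    · rw [hp1 v hv]
    · exact hrt2 _ _ (hp2 v hv).1.symm.reachable
  have hR : Rooted G p (fun v => G.dist (rt v) v) := by
    constructor
    · intro v hv
      exact (hp2 v (hp3 v hv)).1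
    · intro v hv
      show G.dist (rt (p v)) (p v) < G.dist (rt v) v
      rw [hrp]
      exact (hp2 v (hp3 v hv)).2
  refine ⟨p, fun v => G.dist (rt v) v, hR, ?_⟩
  intro v w hpv hvw
  obtain ⟨r, hr, hd⟩ := exists_root hR w
  have hroot : ∀ u, p u = u → u = rt u := by
    intro u hu
    by_contra hne
    have := (hp2 u hne).1
    rw [hu] at this
    exact G.loopless.irrefl u this
  have hiter : ∀ k u, rt (p^[k] u) = rt u := by
    intro k
    induction k with
    | zero => intro u; rfl
    | succ k ih =>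
      intro u
      rw [Function.iterate_succ_apply', hrp, ih]
  have h1 : r = v := by
    obtain ⟨k, hk⟩ := hd
    have h2 : rt r = rt w := by rw [← hk, hiter]
    rw [hroot r hr, h2, ← hrt2 v w hvw, ← hroot v hpv]
  rw [← h1]
  exact hd

end TreePart

open TreePart in
/-- **Tree partition lemma.** If all degrees are at most `D` and all connected components have at
least `K ≥ 1` vertices, then the vertex set has a partition into sets which induce connected
subgraphs and have at least `K` and at most `D (K - 1) + 1` elements; moreover there is a rooted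
spanning forest such that every part is a subtree of it. -/
theorem tree_partition {V : Type*} [Fintype V] [DecidableEq V] (G : SimpleGraph V)
    [DecidableRel G.Adj] {D K : ℕ} (hK : 1 ≤ K) (hD : ∀ v, G.degree v ≤ D)
    (hcomp : ∀ c : G.ConnectedComponent, K ≤ c.supp.ncard) :
    ∃ (p : V → V) (h : V → ℕ) (P : Finset (Finset V)), Rooted G p h ∧
      (∀ B ∈ P, (∃ t, IsTop p B t) ∧ (G.induce (B : Set V)).Connected ∧ K ≤ B.card ∧
        B.card ≤ D * (K - 1) + 1) ∧
      (∀ B ∈ P, ∀ B' ∈ P, B ≠ B' → Disjoint B B') ∧ ∀ v, ∃ B ∈ P, v ∈ B := by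
  obtain ⟨p, h, hR, hdesc⟩ := exists_rooted G
  obtain ⟨P, hP1, hP2, hP3⟩ := main hR hK hD _ Finset.univ rfl (fun _ _ => Finset.mem_univ _) (by
    intro r _ hr
    have h1 := hcomp (G.connectedComponentMk r)
    refine h1.trans ?_
    rw [← Set.ncard_coe_finset]
    apply Set.ncard_le_ncard _ (Finset.finite_toSet _)
    intro w hw
    rw [Finset.mem_coe, mem_dsc]
    refine ⟨Finset.mem_univ _, hdesc r w hr ?_⟩
    rw [SimpleGraph.ConnectedComponent.mem_supp_iff] at hw
    exact (SimpleGraph.ConnectedComponent.exact hw).symm)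
  refine ⟨p, h, P, hR, ?_, hP2, fun v => (hP3 v).1 (Finset.mem_univ v)⟩
  intro B hB
  obtain ⟨⟨t, ht⟩, h2, h3⟩ := hP1 B hB
  exact ⟨⟨t, ht⟩, ht.connected hR, h2, h3⟩

end Pool.Agent.MP6be45b
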